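import Mathlib

/-!
# Power sums times the Vandermonde polynomial

For `k` variables, `FF k μ = (∏_{m ∈ μ} p_m) · a_δ` where `a_δ` is the Vandermonde polynomial.
We prove `⟨FF μ, FF ν⟩ = k! z_μ δ_{μν}` for the inner product in which monomials are orthonormal,
provided `μ.sum + ν.sum ≤ k`.
-/

open MvPolynomial Finset

namespace Helper47.Sn

variable {k : ℕ}

/-- antisymmetric polynomials -/
def Anti (F : MvPolynomial (Fin k) ℤ) : Prop :=
  ∀ w : Equiv.Perm (Fin k), rename w F = ((Equiv.Perm.sign w : ℤˣ) : ℤ) • F

theorem Anti.coeff_mapDomain {F : MvPolynomial (Fin k) ℤ} (hF : Anti F)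
    (w : Equiv.Perm (Fin k)) (l : Fin k →₀ ℕ) :
    coeff (l.mapDomain w) F = ((Equiv.Perm.sign w : ℤˣ) : ℤ) * coeff l F := by
  have h1 := coeff_rename_mapDomain w w.injective F l
  rw [hF w, coeff_smul, smul_eq_mul] at h1
  rw [← h1, ← mul_assoc]
  have : ((Equiv.Perm.sign w : ℤˣ) : ℤ) * ((Equiv.Perm.sign w : ℤˣ) : ℤ) = 1 := by
    rw [← Units.val_mul, Int.units_mul_self, Units.val_one]
  rw [this, one_mul]

theorem anti_of_coeff {F : MvPolynomial (Fin k) ℤ}
    (h : ∀ (w : Equiv.Perm (Fin k)) (l : Fin k →₀ ℕ),
      coeff (l.mapDomain w) F = ((Equiv.Perm.sign w : ℤˣ) : ℤ) * coeff l F) : Anti F := by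
  intro w
  ext l
  obtain ⟨l', rfl⟩ : ∃ l' : Fin k →₀ ℕ, l'.mapDomain w = l :=
    ⟨l.mapDomain w.symm, by
      rw [← Finsupp.mapDomain_comp]; simp [Finsupp.mapDomain_id]⟩
  rw [coeff_rename_mapDomain w w.injective, coeff_smul, smul_eq_mul, h, ← mul_assoc,
    ← Units.val_mul, Int.units_mul_self, Units.val_one, one_mul]

theorem Anti.coeff_eq_zero {F : MvPolynomial (Fin k) ℤ} (hF : Anti F) {l : Fin k →₀ ℕ}
    {i j : Fin k} (hij : i ≠ j) (h : l i = l j) : coeff l F = 0 := by
  have h1 := hF.coeff_mapDomain (Equiv.swap i j) l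
  have h2 : l.mapDomain (Equiv.swap i j) = l := by
    ext x
    have : l.mapDomain (Equiv.swap i j) x = l ((Equiv.swap i j).symm x) := by
      rw [← Finsupp.equivMapDomain_eq_mapDomain]; rfl
    rw [this]
    rw [Equiv.symm_swap]
    by_cases hx : x = i
    · rw [hx, Equiv.swap_apply_left, h]
    · by_cases hy : x = j
      · rw [hy, Equiv.swap_apply_right, h]
      · rw [Equiv.swap_apply_of_ne_of_ne hx hy]
  rw [h2, Equiv.Perm.sign_swap hij] at h1
  simp at h1
  omega

theorem Anti.psum_mul {F : MvPolynomial (Fin k) ℤ} (hF : Anti F) (m : ℕ) :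
    Anti (psum (Fin k) ℤ m * F) := by
  intro w
  rw [map_mul, rename_psum, hF w, mul_smul_comm]

theorem Anti.injective {F : MvPolynomial (Fin k) ℤ} (hF : Anti F) {l : Fin k →₀ ℕ}
    (h : coeff l F ≠ 0) : Function.Injective l := by
  intro i j hij
  by_contra hne
  exact h (hF.coeff_eq_zero hne hij)

/-- adjoint of multiplication by `psum m` -/
noncomputable def adj (m : ℕ) (F : MvPolynomial (Fin k) ℤ) : MvPolynomial (Fin k) ℤ :=
  ∑ i, F.divMonomial (Finsupp.single i m)

theorem coeff_adj (m : ℕ) (F : MvPolynomial (Fin k) ℤ) (l : Fin k →₀ ℕ) :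
    coeff l (adj m F) = ∑ i, coeff (Finsupp.single i m + l) F := by
  rw [adj, coeff_sum]
  simp [coeff_divMonomial]

theorem coeff_psum_mul (m : ℕ) (F : MvPolynomial (Fin k) ℤ) (l : Fin k →₀ ℕ) :
    coeff l (psum (Fin k) ℤ m * F) =
      ∑ i, if m ≤ l i then coeff (l - Finsupp.single i m) F else 0 := by
  rw [psum, Finset.sum_mul, coeff_sum]
  refine Finset.sum_congr rfl fun i _ => ?_
  rw [X_pow_eq_monomial, coeff_monomial_mul', one_mul]
  simp only [Finsupp.single_le_iff]

theorem Anti.adj {F : MvPolynomial (Fin k) ℤ} (hF : Anti F) (m : ℕ) :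
    Anti (adj m F) := by
  refine anti_of_coeff fun w l => ?_
  rw [coeff_adj, coeff_adj, Finset.mul_sum]
  rw [← Equiv.sum_comp w]
  refine Finset.sum_congr rfl fun i _ => ?_
  rw [← hF.coeff_mapDomain w, Finsupp.mapDomain_add, Finsupp.mapDomain_single]

/-- sum of a set of `c` naturals is at least `c(c-1)/2` -/
theorem sum_range_le (s : Finset ℕ) : ∑ i ∈ range s.card, i ≤ ∑ i ∈ s, i := by
  induction s using Finset.induction_on_max with
  | empty => simp
  | insert a s hmax ih =>
    have ha : a ∉ s := fun h => lt_irrefl _ (hmax a h)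
    rw [Finset.card_insert_of_notMem ha, Finset.sum_range_succ, Finset.sum_insert ha, add_comm]
    have : s.card ≤ a := by
      have : s ⊆ range a := fun x hx => by simpa using hmax x hx
      simpa using Finset.card_le_card this
    omega

theorem min_deg {l : Fin k → ℕ} (hl : Function.Injective l) : k * (k - 1) / 2 ≤ ∑ i, l i := by
  have h := sum_range_le (Finset.univ.image l)
  rw [Finset.card_image_of_injective _ hl, Finset.sum_image (fun _ _ _ _ h => hl h)] at h
  simpa [Finset.sum_range_id] using h

theorem exists_eq {l : Fin k → ℕ} (hl : Function.Injective l) {e v : ℕ}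
    (he : ∑ i, l i = e + k * (k - 1) / 2) (hv : v + e < k) : ∃ i, l i = v := by
  by_contra hcon
  push Not at hcon
  have hnot : v ∉ Finset.univ.image l := by
    simp only [Finset.mem_image, Finset.mem_univ, true_and, not_exists]
    exact hcon
  have h := sum_range_le (insert v (Finset.univ.image l))
  rw [Finset.card_insert_of_notMem hnot, Finset.sum_insert hnot,
    Finset.card_image_of_injective _ hl, Finset.sum_image (fun _ _ _ _ h => hl h), he] at h
  simp only [Finset.card_univ, Fintype.card_fin, Finset.sum_range_succ, Finset.sum_range_id] at h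
  omega

theorem card_lt {l : Fin k → ℕ} (hl : Function.Injective l) {m : ℕ}
    (h : ∀ v < m, ∃ i, l i = v) : #{j | l j < m} = m := by
  have : (Finset.univ.filter (fun j => l j < m)).image l = range m := by
    ext v
    simp only [Finset.mem_image, Finset.mem_filter, Finset.mem_univ, true_and, Finset.mem_range]
    constructor
    · rintro ⟨i, hi, rfl⟩; exact hi
    · intro hv
      obtain ⟨i, rfl⟩ := h v hv
      exact ⟨i, hv, rfl⟩
  rw [← Finset.card_image_of_injective _ hl, this, Finset.card_range]

theorem degree_eq_sum' (l : Fin k →₀ ℕ) : l.degree = ∑ i, l i := by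
  rw [Finsupp.degree_eq_sum]

theorem adj_psum_mul {F : MvPolynomial (Fin k) ℤ} (hF : Anti F) {s m r : ℕ}
    (hH : F.IsHomogeneous (s + k * (k - 1) / 2)) (hk : s + r ≤ k) (hm : 1 ≤ m) :
    adj m (psum (Fin k) ℤ r * F) =
      psum (Fin k) ℤ r * adj m F + if m = r then (m : ℤ) • F else 0 := by
  ext l
  by_cases hl : Function.Injective l
  swap
  · have h1 : coeff l (adj m (psum (Fin k) ℤ r * F)) = 0 := by
      by_contra h; exact hl (((hF.psum_mul r).adj m).injective h)
    have h2 : coeff l (psum (Fin k) ℤ r * adj m F) = 0 := by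
      by_contra h; exact hl (((hF.adj m).psum_mul r).injective h)
    have h3 : coeff l F = 0 := by
      by_contra h; exact hl (hF.injective h)
    rw [h1, coeff_add, h2]
    split_ifs
    · rw [coeff_smul, h3, smul_zero, add_zero]
    · simp
  -- the difference
  have key : coeff l (adj m (psum (Fin k) ℤ r * F)) =
      coeff l (psum (Fin k) ℤ r * adj m F) +
        ∑ j, if l j < r ∧ r ≤ m + l j then
          coeff (Finsupp.single j m + l - Finsupp.single j r) F else 0 := by
    rw [coeff_adj, coeff_psum_mul]
    simp only [coeff_psum_mul, coeff_adj]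
    rw [Finset.sum_comm, ← Finset.sum_add_distrib]
    refine Finset.sum_congr rfl fun j _ => ?_
    rw [← Finset.add_sum_erase _ _ (Finset.mem_univ j)]
    have hR : (if r ≤ l j then ∑ i, coeff (Finsupp.single i m + (l - Finsupp.single j r)) F else 0)
        = (if r ≤ l j then coeff (Finsupp.single j m + (l - Finsupp.single j r)) F else 0) +
          ∑ i ∈ Finset.univ.erase j,
            if r ≤ l j then coeff (Finsupp.single i m + (l - Finsupp.single j r)) F else 0 := by
      split_ifs with h
      · rw [← Finset.add_sum_erase _ _ (Finset.mem_univ j)]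
      · simp
    rw [hR]
    have hE : ∑ x ∈ Finset.univ.erase j,
        (if r ≤ (Finsupp.single x m + l) j then
          coeff (Finsupp.single x m + l - Finsupp.single j r) F else 0) =
        ∑ i ∈ Finset.univ.erase j,
            if r ≤ l j then coeff (Finsupp.single i m + (l - Finsupp.single j r)) F else 0 := by
      refine Finset.sum_congr rfl fun i hi => ?_
      have hij : i ≠ j := (Finset.mem_erase.1 hi).1
      have h1 : (Finsupp.single i m + l) j = l j := by
        simp [Finsupp.single_apply, hij]
      rw [h1]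
      split_ifs with h
      · congr 1
        ext x
        simp only [Finsupp.tsub_apply, Finsupp.add_apply, Finsupp.single_apply]
        by_cases hx : j = x
        · subst hx; simp [hij]
        · simp [hx]
      · rfl
    rw [hE]
    have hj : (Finsupp.single j m + l) j = m + l j := by simp
    rw [hj]
    have hD : (if r ≤ m + l j then
          coeff (Finsupp.single j m + l - Finsupp.single j r) F else 0) =
        (if r ≤ l j then coeff (Finsupp.single j m + (l - Finsupp.single j r)) F else 0) +
        (if l j < r ∧ r ≤ m + l j then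
          coeff (Finsupp.single j m + l - Finsupp.single j r) F else 0) := by
      by_cases h : r ≤ l j
      · have h1 : r ≤ m + l j := by omega
        have h2 : ¬ (l j < r ∧ r ≤ m + l j) := by omega
        rw [if_pos h, if_pos h1, if_neg h2, add_zero]
        congr 1
        ext x
        simp only [Finsupp.tsub_apply, Finsupp.add_apply, Finsupp.single_apply]
        by_cases hx : j = x
        · subst hx; simp; omega
        · simp [hx]
      · rw [if_neg h, zero_add]
        by_cases h1 : r ≤ m + l j
        · rw [if_pos h1, if_pos ⟨by omega, h1⟩]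
        · rw [if_neg h1, if_neg (by omega)]
    rw [hD]
    ring
  rw [key, coeff_add]
  congr 1
  -- degrees
  have hdeg : ∀ l' : Fin k →₀ ℕ, coeff l' F ≠ 0 → ∑ i, l' i = s + k * (k - 1) / 2 := by
    intro l' h
    by_contra hne
    apply h
    apply hH.coeff_eq_zero
    rwa [degree_eq_sum']
  by_cases hd : ∑ i, l i + m = s + r + k * (k - 1) / 2
  · have hmin := min_deg hl
    obtain ⟨e, he⟩ : ∃ e, ∑ i, l i = e + k * (k - 1) / 2 :=
      ⟨∑ i, l i - k * (k - 1) / 2, by omega⟩
    have hsurj : ∀ v < m, ∃ i, l i = v := by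
      intro v hv
      exact exists_eq hl he (by omega)
    split_ifs with hmr
    · subst hmr
      rw [coeff_smul, smul_eq_mul]
      have : ∀ j, (if l j < m ∧ m ≤ m + l j then
          coeff (Finsupp.single j m + l - Finsupp.single j m) F else 0) =
          if l j < m then coeff l F else 0 := by
        intro j
        have : Finsupp.single j m + l - Finsupp.single j m = l := by
          ext x; simp
        rw [this]
        simp
      rw [Finset.sum_congr rfl fun j _ => this j]
      rw [← Finset.sum_filter, Finset.sum_const, card_lt hl hsurj]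
      simp
    · rw [coeff_zero]
      refine Finset.sum_eq_zero fun j _ => ?_
      split_ifs with h
      · obtain ⟨j', hj'⟩ := hsurj (m + l j - r) (by omega)
        have hne : j ≠ j' := by
          rintro rfl
          omega
        apply hF.coeff_eq_zero hne
        simp [Finsupp.single_apply, hne, hne.symm, hj']
      · rfl
  · have h1 : coeff l F = 0 ∨ m ≠ r := by
      by_cases hmr : m = r
      · left
        by_contra h
        have := hdeg l h
        omega
      · exact Or.inr hmr
    have h2 : coeff l (if m = r then (m : ℤ) • F else 0) = 0 := by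
      split_ifs with hmr
      · rcases h1 with h1 | h1
        · rw [coeff_smul, h1, smul_zero]
        · exact absurd hmr h1
      · simp
    rw [h2]
    refine Finset.sum_eq_zero fun j _ => ?_
    split_ifs with h
    · by_contra hne
      have h3 := hdeg _ hne
      apply hd
      have h4 : ∑ i, (Finsupp.single j m + l - Finsupp.single j r : Fin k →₀ ℕ) i + r
          = ∑ i, l i + m := by
        have e1 : ∑ i, (Finsupp.single j r : Fin k →₀ ℕ) i = r := by
          simp [Finsupp.single_apply]
        have e2 : ∑ i, (Finsupp.single j m : Fin k →₀ ℕ) i = m := by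
          simp [Finsupp.single_apply]
        conv_lhs => rw [← e1]
        conv_rhs => rw [← e2]
        rw [← Finset.sum_add_distrib, ← Finset.sum_add_distrib]
        refine Finset.sum_congr rfl fun i _ => ?_
        simp only [Finsupp.tsub_apply, Finsupp.add_apply, Finsupp.single_apply]
        by_cases hx : j = i
        · subst hx; simp; omega
        · simp [hx]
      omega
    · rfl

/-! ### The Vandermonde polynomial -/

/-- exponent vector of a permutation -/
noncomputable def expo (w : Equiv.Perm (Fin k)) : Fin k →₀ ℕ :=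
  Finsupp.equivFunOnFinite.symm (fun i => ((w i : Fin k) : ℕ))

@[simp] theorem expo_apply (w : Equiv.Perm (Fin k)) (i : Fin k) : expo w i = (w i : ℕ) := rfl

theorem expo_injective : Function.Injective (expo (k := k)) := by
  intro v w h
  ext i
  have := DFunLike.congr_fun h i
  simpa using this

/-- The Vandermonde polynomial `∑_w sgn(w) ∏_i x_i^{w i}`. -/
noncomputable def vdm (k : ℕ) : MvPolynomial (Fin k) ℤ :=
  ∑ w : Equiv.Perm (Fin k), monomial (expo w) ((Equiv.Perm.sign w : ℤˣ) : ℤ)

theorem coeff_vdm_expo (w : Equiv.Perm (Fin k)) :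
    coeff (expo w) (vdm k) = ((Equiv.Perm.sign w : ℤˣ) : ℤ) := by
  classical
  rw [vdm, coeff_sum]
  simp only [coeff_monomial]
  rw [Finset.sum_eq_single w]
  · simp
  · intro v _ hv
    rw [if_neg]
    exact fun h => hv (expo_injective h)
  · simp

theorem support_vdm : (vdm k).support ⊆ Finset.univ.image expo := by
  classical
  intro l hl
  by_contra h
  rw [mem_support_iff] at hl
  apply hl
  rw [vdm, coeff_sum]
  refine Finset.sum_eq_zero fun w _ => ?_
  rw [coeff_monomial, if_neg]
  rintro rfl
  exact h (Finset.mem_image_of_mem _ (Finset.mem_univ _))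

theorem vdm_anti : Anti (vdm k) := by
  intro v
  rw [vdm, map_sum, Finset.smul_sum]
  rw [← Equiv.sum_comp (Equiv.mulRight v)]
  refine Finset.sum_congr rfl fun w _ => ?_
  rw [Equiv.coe_mulRight, rename_monomial, smul_monomial]
  have h1 : Finsupp.mapDomain v (expo (w * v)) = expo w := by
    ext x
    have : Finsupp.mapDomain v (expo (w * v)) x = expo (w * v) (v.symm x) := by
      rw [← Finsupp.equivMapDomain_eq_mapDomain]; rfl
    rw [this]
    simp
  rw [h1]
  congr 1
  rw [map_mul, Units.val_mul, smul_eq_mul, mul_comm]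

theorem sum_expo (w : Equiv.Perm (Fin k)) : ∑ i, expo w i = k * (k - 1) / 2 := by
  simp only [expo_apply]
  rw [Equiv.sum_comp w (fun i => (i : ℕ))]
  rw [← Finset.sum_range_id, Finset.sum_range]

theorem vdm_homogeneous : (vdm k).IsHomogeneous (k * (k - 1) / 2) := by
  rw [vdm]
  refine IsHomogeneous.sum _ _ _ fun w _ => ?_
  apply isHomogeneous_monomial
  rw [degree_eq_sum', sum_expo]

/-- the inner product for which monomials are orthonormal -/
noncomputable def ip (F G : MvPolynomial (Fin k) ℤ) : ℤ := ∑ l ∈ F.support, coeff l F * coeff l G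

theorem ip_eq_sum {F : MvPolynomial (Fin k) ℤ} {S : Finset (Fin k →₀ ℕ)} (h : F.support ⊆ S)
    (G : MvPolynomial (Fin k) ℤ) : ip F G = ∑ l ∈ S, coeff l F * coeff l G := by
  rw [ip]
  refine Finset.sum_subset h fun l _ hl => ?_
  rw [notMem_support_iff.1 hl, zero_mul]

theorem ip_comm (F G : MvPolynomial (Fin k) ℤ) : ip F G = ip G F := by
  classical
  rw [ip_eq_sum (Finset.subset_union_left (s₂ := G.support)),
    ip_eq_sum (Finset.subset_union_right (s₁ := F.support))]
  exact Finset.sum_congr rfl fun _ _ => mul_comm _ _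

theorem ip_add_left (F F' G : MvPolynomial (Fin k) ℤ) : ip (F + F') G = ip F G + ip F' G := by
  classical
  have h1 : (F + F').support ⊆ F.support ∪ F'.support := support_add
  rw [ip_eq_sum h1, ip_eq_sum (Finset.subset_union_left (s₂ := F'.support)),
    ip_eq_sum (Finset.subset_union_right (s₁ := F.support)), ← Finset.sum_add_distrib]
  refine Finset.sum_congr rfl fun l _ => ?_
  rw [coeff_add, add_mul]

theorem ip_zero_left (G : MvPolynomial (Fin k) ℤ) : ip 0 G = 0 := by
  simp [ip]

theorem ip_sum_left {ι : Type*} (s : Finset ι) (F : ι → MvPolynomial (Fin k) ℤ)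
    (G : MvPolynomial (Fin k) ℤ) : ip (∑ i ∈ s, F i) G = ∑ i ∈ s, ip (F i) G := by
  classical
  induction s using Finset.induction_on with
  | empty => simp [ip_zero_left]
  | insert a s ha ih => rw [Finset.sum_insert ha, Finset.sum_insert ha, ip_add_left, ih]

theorem ip_smul_right (F G : MvPolynomial (Fin k) ℤ) (c : ℤ) : ip F (c • G) = c * ip F G := by
  rw [ip, ip, Finset.mul_sum]
  refine Finset.sum_congr rfl fun l _ => ?_
  rw [coeff_smul, smul_eq_mul]; ring

theorem ip_monomial_mul (F G : MvPolynomial (Fin k) ℤ) (s : Fin k →₀ ℕ) :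
    ip (monomial s 1 * F) G = ∑ l ∈ F.support, coeff l F * coeff (s + l) G := by
  classical
  have h : (monomial s (1 : ℤ) * F).support ⊆ F.support.image (fun l => s + l) := by
    intro l hl
    rw [mem_support_iff, coeff_monomial_mul'] at hl
    split_ifs at hl with h
    · rw [one_mul] at hl
      exact Finset.mem_image.2 ⟨l - s, mem_support_iff.2 hl, add_tsub_cancel_of_le h⟩
    · exact absurd rfl hl
  rw [ip_eq_sum h, Finset.sum_image (fun _ _ _ _ h => add_left_cancel h)]
  refine Finset.sum_congr rfl fun l _ => ?_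
  rw [coeff_monomial_mul, one_mul]

theorem ip_psum_mul (F G : MvPolynomial (Fin k) ℤ) (m : ℕ) :
    ip (psum (Fin k) ℤ m * F) G = ip F (adj m G) := by
  rw [psum, Finset.sum_mul, ip_sum_left, ip]
  simp only [X_pow_eq_monomial, ip_monomial_mul, coeff_adj]
  rw [Finset.sum_comm]
  refine Finset.sum_congr rfl fun l _ => ?_
  rw [Finset.mul_sum]

/-- `(∏_{m ∈ μ} p_m) · a_δ` -/
noncomputable def FF (k : ℕ) (μ : Multiset ℕ) : MvPolynomial (Fin k) ℤ :=
  (μ.map (psum (Fin k) ℤ)).prod * vdm k

theorem FF_zero : FF k 0 = vdm k := by simp [FF]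

theorem FF_cons (m : ℕ) (μ : Multiset ℕ) : FF k (m ::ₘ μ) = psum (Fin k) ℤ m * FF k μ := by
  simp [FF, mul_assoc]

theorem FF_anti (μ : Multiset ℕ) : Anti (FF k μ) := by
  induction μ using Multiset.induction_on with
  | empty => rw [FF_zero]; exact vdm_anti
  | cons m μ ih => rw [FF_cons]; exact ih.psum_mul m

theorem FF_homogeneous (μ : Multiset ℕ) : (FF k μ).IsHomogeneous (μ.sum + k * (k - 1) / 2) := by
  induction μ using Multiset.induction_on with
  | empty => rw [FF_zero]; simpa using vdm_homogeneous
  | cons m μ ih =>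
    rw [FF_cons, Multiset.sum_cons, add_assoc]
    refine IsHomogeneous.mul ?_ ih
    rw [psum]
    refine IsHomogeneous.sum _ _ _ fun i _ => ?_
    simpa using (isHomogeneous_X ℤ i).pow m

theorem adj_vdm {m : ℕ} (hm : 1 ≤ m) : adj m (vdm k) = 0 := by
  ext l
  rw [coeff_zero]
  by_contra h
  have h1 := min_deg ((vdm_anti.adj m).injective h)
  rw [coeff_adj] at h
  obtain ⟨i, _, hi⟩ := Finset.exists_ne_zero_of_sum_ne_zero h
  have h2 := support_vdm (mem_support_iff.2 hi)
  obtain ⟨w, _, hw⟩ := Finset.mem_image.1 h2
  have h3 := sum_expo w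
  rw [hw] at h3
  simp only [Finsupp.add_apply, Finset.sum_add_distrib, Finsupp.single_apply,
    Finset.sum_ite_eq, Finset.mem_univ, if_true] at h3
  omega

theorem adj_FF {m : ℕ} (hm : 1 ≤ m) (ν : Multiset ℕ) (hk : ν.sum ≤ k) :
    adj m (FF k ν) = ((m * ν.count m : ℕ) : ℤ) • FF k (ν.erase m) := by
  induction ν using Multiset.induction_on with
  | empty => simp [FF_zero, adj_vdm hm]
  | cons r ν ih =>
    rw [Multiset.sum_cons] at hk
    rw [FF_cons, adj_psum_mul (FF_anti ν) (FF_homogeneous ν) (by omega) hm, ih (by omega)]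
    by_cases hmr : m = r
    · subst hmr
      rw [if_pos rfl, Multiset.count_cons_self, Multiset.erase_cons_head]
      by_cases hmem : m ∈ ν
      · rw [mul_smul_comm, ← FF_cons, Multiset.cons_erase hmem, ← add_smul]
        congr 1
      · rw [Multiset.count_eq_zero_of_notMem hmem]
        simp
    · rw [if_neg hmr, add_zero, mul_smul_comm, ← FF_cons, Multiset.count_cons_of_ne hmr,
        Multiset.erase_cons_tail _ (by simpa using fun h => hmr h.symm)]

/-- `z_μ` -/
def zz (μ : Multiset ℕ) : ℕ := μ.prod * ∏ m ∈ μ.toFinset, (μ.count m).factorial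

theorem zz_cons (m : ℕ) (μ : Multiset ℕ) :
    zz (m ::ₘ μ) = m * (μ.count m + 1) * zz μ := by
  rw [zz, zz, Multiset.prod_cons]
  have h1 : ∀ (ν : Multiset ℕ) (S : Finset ℕ), ν.toFinset ⊆ S →
      ∏ a ∈ ν.toFinset, (ν.count a).factorial = ∏ a ∈ S, (ν.count a).factorial := by
    intro ν S hS
    refine Finset.prod_subset hS fun a _ ha => ?_
    rw [Multiset.mem_toFinset] at ha
    rw [Multiset.count_eq_zero_of_notMem ha, Nat.factorial_zero]
  have h2 : μ.toFinset ⊆ (m ::ₘ μ).toFinset := by
    intro a ha
    simp only [Multiset.mem_toFinset] at ha ⊢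
    exact Multiset.mem_cons_of_mem ha
  rw [h1 μ _ h2]
  have hm : m ∈ (m ::ₘ μ).toFinset := by simp
  rw [← Finset.mul_prod_erase _ _ hm, ← Finset.mul_prod_erase _ _ hm,
    Multiset.count_cons_self, Nat.factorial_succ]
  have h3 : ∏ x ∈ (m ::ₘ μ).toFinset.erase m, (Multiset.count x (m ::ₘ μ)).factorial =
      ∏ x ∈ (m ::ₘ μ).toFinset.erase m, (Multiset.count x μ).factorial := by
    refine Finset.prod_congr rfl fun x hx => ?_
    rw [Multiset.count_cons_of_ne (Finset.ne_of_mem_erase hx)]
  rw [h3]
  ring

theorem ip_vdm_vdm : ip (vdm k) (vdm k) = (k.factorial : ℤ) := by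
  classical
  rw [ip_eq_sum support_vdm, Finset.sum_image (fun _ _ _ _ h => expo_injective h)]
  simp only [coeff_vdm_expo, ← Units.val_mul, Int.units_mul_self, Units.val_one]
  simp [Fintype.card_perm]

theorem ip_FF (μ : Multiset ℕ) (hμ : ∀ m ∈ μ, 1 ≤ m) : ∀ (ν : Multiset ℕ) (_ : ∀ m ∈ ν, 1 ≤ m)
    (_ : ν.sum ≤ k), ip (FF k μ) (FF k ν) = if μ = ν then ((k.factorial * zz μ : ℕ) : ℤ) else 0 := by
  classical
  induction μ using Multiset.induction_on with
  | empty =>
    intro ν hν hk
    split_ifs with h
    · subst h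
      rw [FF_zero, ip_vdm_vdm]
      simp [zz]
    · rw [ip]
      refine Finset.sum_eq_zero fun l hl => ?_
      by_contra hne
      have h1 := left_ne_zero_of_mul hne
      have h2 := right_ne_zero_of_mul hne
      have e1 : l.degree = 0 + k * (k - 1) / 2 := by
        by_contra h'
        exact h1 ((FF_homogeneous (k := k) 0).coeff_eq_zero (by simpa using h'))
      have e2 : l.degree = ν.sum + k * (k - 1) / 2 := by
        by_contra h'
        exact h2 ((FF_homogeneous (k := k) ν).coeff_eq_zero h')
      have : ν.sum = 0 := by omega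
      apply h
      rw [Multiset.sum_eq_zero_iff] at this
      symm
      rw [Multiset.eq_zero_iff_forall_notMem]
      intro a ha
      have := this a ha
      have := hν a ha
      omega
  | cons m μ ih =>
    intro ν hν hk
    have hm : 1 ≤ m := hμ m (Multiset.mem_cons_self _ _)
    rw [FF_cons, ip_psum_mul, adj_FF hm ν hk, ip_smul_right,
      ih (fun a ha => hμ a (Multiset.mem_cons_of_mem ha)) _
        (fun a ha => hν a (Multiset.mem_of_mem_erase ha)) ?_]
    · by_cases hmem : m ∈ ν
      · by_cases h : μ = ν.erase m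
        · have : m ::ₘ μ = ν := by rw [h, Multiset.cons_erase hmem]
          rw [if_pos h, if_pos this, ← this, zz_cons, Multiset.count_cons_self]
          push_cast; ring
        · have : m ::ₘ μ ≠ ν := by
            rintro rfl
            exact h (by rw [Multiset.erase_cons_head])
          rw [if_neg h, if_neg this, mul_zero]
      · have : m ::ₘ μ ≠ ν := by
          rintro rfl
          exact hmem (Multiset.mem_cons_self _ _)
        rw [if_neg this, Multiset.count_eq_zero_of_notMem hmem]
        simp
    · have : (ν.erase m).sum ≤ ν.sum := by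
        by_cases hmem : m ∈ ν
        · conv_rhs => rw [← Multiset.cons_erase hmem]
          rw [Multiset.sum_cons]; omega
        · rw [Multiset.erase_of_notMem hmem]
      omega

end Helper47.Sn
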