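import Mathlib
import Pool.Agent.Helper47.Sn.Fock

/-!
# Colourings invariant under a permutation

`colPoly g = ∑_{c : α → Fin k, c ∘ g = c} ∏_x X_{c x}` equals `∏_{m ∈ parts g} p_m`.
-/

open MvPolynomial Finset Equiv Equiv.Perm

namespace Helper47.Sn

variable {k : ℕ} {α : Type*} [Fintype α] [DecidableEq α]

/-- the generating polynomial of the `g`-invariant colourings -/
noncomputable def colPoly (k : ℕ) (g : Perm α) : MvPolynomial (Fin k) ℤ :=
  ∑ c : {c : α → Fin k // c ∘ g = c}, ∏ x, X (c.1 x)

omit [Fintype α] [DecidableEq α] in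
theorem inv_zpow {c : α → Fin k} {g : Perm α} (h : c ∘ g = c) (i : ℤ) (x : α) :
    c ((g ^ i) x) = c x := by
  have h1 : ∀ y, c (g y) = c y := fun y => congrFun h y
  have h2 : ∀ y, c (g⁻¹ y) = c y := fun y => by
    rw [← h1 (g⁻¹ y), ← Perm.mul_apply, mul_inv_cancel, Perm.one_apply]
  induction i using Int.induction_on with
  | zero => simp
  | succ i ih => rw [zpow_add_one, Perm.mul_apply, ← ih, ← Perm.mul_apply, ← zpow_add_one, 
      add_comm, zpow_one_add, Perm.mul_apply, h1]
  | pred i ih => 
    rw [show (-(i:ℤ) - 1) = -1 + -(i:ℤ) by ring, zpow_add, zpow_neg_one, Perm.mul_apply, h2, ih]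

omit [Fintype α] [DecidableEq α] in
theorem inv_sameCycle {c : α → Fin k} {g : Perm α} (h : c ∘ g = c) {x y : α}
    (hxy : g.SameCycle x y) : c x = c y := by
  obtain ⟨i, rfl⟩ := hxy
  rw [inv_zpow h]

theorem exists_pt (g : Perm α) (σ : g.cycleFactorsFinset) : ∃ x, x ∈ (σ.1 : Perm α).support := by
  have h := (mem_cycleFactorsFinset_iff.1 σ.2).1
  obtain ⟨x, hx, _⟩ := h
  exact ⟨x, mem_support.2 hx⟩

/-- a point in the support of a cycle factor -/
noncomputable def pt (g : Perm α) (σ : g.cycleFactorsFinset) : α := (exists_pt g σ).choose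

theorem pt_mem (g : Perm α) (σ : g.cycleFactorsFinset) : pt g σ ∈ (σ.1 : Perm α).support :=
  (exists_pt g σ).choose_spec

/-- the factor containing a non-fixed point -/
noncomputable def fac (g : Perm α) (x : α) (hx : g x ≠ x) : g.cycleFactorsFinset :=
  ⟨g.cycleOf x, cycleOf_mem_cycleFactorsFinset_iff.2 (mem_support.2 hx)⟩

/-- gluing -/
noncomputable def glue (g : Perm α) (u : g.cycleFactorsFinset → Fin k)
    (v : {x // g x = x} → Fin k) (x : α) : Fin k :=
  if h : g x = x then v ⟨x, h⟩ else u (fac g x h)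

theorem glue_inv (g : Perm α) (u : g.cycleFactorsFinset → Fin k)
    (v : {x // g x = x} → Fin k) : glue g u v ∘ g = glue g u v := by
  ext x
  simp only [Function.comp_apply, glue]
  congr 1
  by_cases h : g x = x
  · simp [h]
  · have h' : ¬ g (g x) = g x := fun h' => h (g.injective h')
    rw [dif_neg h, dif_neg h']
    congr 1
    apply Subtype.ext
    simp only [fac]
    exact cycleOf_self_apply g x

/-- invariant colourings are pairs of functions -/
noncomputable def colEquiv (k : ℕ) (g : Perm α) : {c : α → Fin k // c ∘ g = c} ≃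
    (g.cycleFactorsFinset → Fin k) × ({x // g x = x} → Fin k) where
  toFun c := (fun σ => c.1 (pt g σ), fun x => c.1 x)
  invFun p := ⟨glue g p.1 p.2, glue_inv g p.1 p.2⟩
  left_inv := by
    rintro ⟨c, hc⟩
    apply Subtype.ext
    ext x
    simp only [glue]
    congr 1
    by_cases h : g x = x
    · simp [h]
    · rw [dif_neg h]
      have h1 := pt_mem g (fac g x h)
      simp only [fac] at h1
      exact (inv_sameCycle hc (mem_support_cycleOf_iff.1 h1).1).symm
  right_inv := by
    rintro ⟨u, v⟩
    apply Prod.ext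
    · ext σ
      simp only [glue]
      congr 1
      have h1 := pt_mem g σ
      have h2 : g (pt g σ) ≠ pt g σ := by
        have := mem_cycleFactorsFinset_support_le σ.2 h1
        exact mem_support.1 this
      rw [dif_neg h2]
      congr 1
      apply Subtype.ext
      exact (cycle_is_cycleOf h1 σ.2).symm
    · ext x
      simp [glue, x.2]

theorem prod_support (g : Perm α) {M : Type*} [CommMonoid M] (f : g.cycleFactorsFinset → M) :
    ∏ x : {x // ¬ g x = x}, f (fac g x.1 x.2) =
      ∏ σ : g.cycleFactorsFinset, f σ ^ (σ.1 : Perm α).support.card := by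
  classical
  rw [← Finset.prod_fiberwise_of_maps_to (s := Finset.univ) (t := Finset.univ)
    (g := fun x : {x // ¬ g x = x} => fac g x.1 x.2) (fun _ _ => Finset.mem_univ _)]
  refine Finset.prod_congr rfl fun σ _ => ?_
  rw [Finset.prod_congr rfl (g := fun _ => f σ)
    (fun x hx => by rw [(Finset.mem_filter.1 hx).2])]
  rw [Finset.prod_const]
  congr 1
  refine Finset.card_bij (fun x _ => x.1) ?_ ?_ ?_
  · intro x hx
    have := (Finset.mem_filter.1 hx).2
    rw [← this]
    simp only [fac]
    rw [mem_support_cycleOf_iff]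
    exact ⟨SameCycle.refl _ _, mem_support.2 x.2⟩
  · intro x _ y _ h
    exact Subtype.ext h
  · intro x hx
    have h2 : g x ≠ x := by
      have := mem_cycleFactorsFinset_support_le σ.2 hx
      exact mem_support.1 this
    refine ⟨⟨x, h2⟩, ?_, rfl⟩
    rw [Finset.mem_filter]
    refine ⟨Finset.mem_univ _, ?_⟩
    apply Subtype.ext
    exact (cycle_is_cycleOf hx σ.2).symm

omit [Fintype α] [DecidableEq α] in
theorem prod_sum_univ' {ι R : Type*} [Fintype ι] [DecidableEq ι] [CommSemiring R]
    (f : ι → Fin k → R) : ∏ i, ∑ j, f i j = ∑ p : ι → Fin k, ∏ i, f i (p i) := by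
  rw [Finset.prod_univ_sum, Fintype.piFinset_univ]

theorem colPoly_eq (g : Perm α) :
    colPoly k g = (g.partition.parts.map (psum (Fin k) ℤ)).prod := by
  classical
  rw [colPoly, ← (colEquiv k g).symm.sum_comp, Fintype.sum_prod_type]
  have h1 : ∀ (u : g.cycleFactorsFinset → Fin k) (v : {x // g x = x} → Fin k),
      ∏ x, (X (((colEquiv k g).symm (u, v)).1 x) : MvPolynomial (Fin k) ℤ) =
      (∏ σ : g.cycleFactorsFinset, X (u σ) ^ (σ.1 : Perm α).support.card) *
        ∏ x : {x // g x = x}, X (v x) := by
    intro u v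
    have h2 : ∀ x, ((colEquiv k g).symm (u, v)).1 x = glue g u v x := fun x => rfl
    simp only [h2]
    rw [← Fintype.prod_subtype_mul_prod_subtype (fun x => g x = x), mul_comm]
    congr 1
    · rw [← prod_support g (fun σ => (X (u σ) : MvPolynomial (Fin k) ℤ))]
      refine Finset.prod_congr rfl fun x _ => ?_
      rw [glue, dif_neg x.2]
    · refine Finset.prod_congr rfl fun x _ => ?_
      rw [glue, dif_pos x.2]
  simp only [h1]
  simp only [← Finset.mul_sum, ← Finset.sum_mul]
  rw [← prod_sum_univ' (fun (σ : g.cycleFactorsFinset) (j : Fin k) =>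
      (X j : MvPolynomial (Fin k) ℤ) ^ (σ.1 : Perm α).support.card),
    ← prod_sum_univ' (fun (_ : {x // g x = x}) (j : Fin k) =>
      (X j : MvPolynomial (Fin k) ℤ))]
  rw [parts_partition, Multiset.map_add, Multiset.prod_add]
  congr 1
  · rw [cycleType_def, Multiset.map_map]
    rw [Finset.prod_coe_sort g.cycleFactorsFinset
      (fun σ => ∑ j : Fin k, (X j : MvPolynomial (Fin k) ℤ) ^ σ.support.card)]
    rfl
  · rw [Finset.prod_const, Multiset.map_replicate, Multiset.prod_replicate, psum_one]
    congr 1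
    rw [Finset.card_univ, Fintype.card_subtype, ← Finset.card_compl]
    congr 1
    ext x
    simp

end Helper47.Sn
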