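import Mathlib
import Pool.Agent.Helper47.Sn.Color

/-!
# Expansion of class functions
-/

open MvPolynomial Finset Equiv Equiv.Perm

namespace Helper47.Sn

variable {k : ℕ} {α : Type*} [Fintype α] [DecidableEq α]

/-- the antisymmetric polynomial attached to a permutation -/
noncomputable def Fg (k : ℕ) (g : Perm α) : MvPolynomial (Fin k) ℤ := FF k g.partition.parts

theorem Fg_eq (g : Perm α) : Fg k g = colPoly k g * vdm k := by
  rw [Fg, FF, colPoly_eq]

theorem zz_replicate (μ : Multiset ℕ) (h : 1 ∉ μ) (a : ℕ) :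
    zz (μ + Multiset.replicate a 1) = a.factorial * zz μ := by
  induction a with
  | zero => simp
  | succ a ih =>
    rw [Multiset.replicate_succ, Multiset.add_cons, zz_cons, ih, Multiset.count_add,
      Multiset.count_eq_zero_of_notMem h, Multiset.count_replicate_self, Nat.factorial_succ]
    ring

theorem zz_parts (g : Perm α) : zz g.partition.parts =
    (Fintype.card α - g.cycleType.sum).factorial * g.cycleType.prod *
        (∏ n ∈ g.cycleType.toFinset, (g.cycleType.count n).factorial) := by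
  rw [parts_partition, zz_replicate, zz, sum_cycleType]
  · ring
  · intro h
    have := two_le_of_mem_cycleType h
    omega

theorem ip_Fg (hk : Fintype.card α ≤ k) (g h : Perm α) [Decidable (IsConj g h)] :
    ip (Fg k g) (Fg k h) =
    if IsConj g h then ((k.factorial * zz g.partition.parts : ℕ) : ℤ) else 0 := by
  rw [Fg, Fg, ip_FF _ (fun m hm => g.partition.parts_pos hm) _
    (fun m hm => h.partition.parts_pos hm) (by rw [h.partition.parts_sum]; exact hk)]
  congr 1
  rw [eq_iff_iff, partition_eq_of_isConj, Nat.Partition.ext_iff]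

theorem sum_class (hk : Fintype.card α ≤ k) (f : Perm α → ℂ)
    (hf : ∀ g h : Perm α, f (h * g * h⁻¹) = f g) (g : Perm α) :
    ∑ h, f h * ((ip (Fg k g) (Fg k h) : ℤ) : ℂ) =
      (k.factorial : ℂ) * ((Fintype.card α).factorial : ℂ) * f g := by
  classical
  simp only [ip_Fg hk]
  have h1 : ∀ h : Perm α, f h * (((if IsConj g h then
      ((k.factorial * zz g.partition.parts : ℕ) : ℤ) else 0 : ℤ)) : ℂ) =
      if IsConj g h then f g * ((k.factorial * zz g.partition.parts : ℕ) : ℂ) else 0 := by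
    intro h
    split_ifs with hc
    · obtain ⟨c, hc⟩ := isConj_iff.1 hc
      rw [← hc, hf]
      push_cast; ring
    · simp
  simp only [h1]
  rw [← Finset.sum_filter, Finset.sum_const, nsmul_eq_mul]
  have h2 := card_isConj_mul_eq g
  rw [← zz_parts] at h2
  have h3 : Nat.card {h : Perm α | IsConj g h} = #{h | IsConj g h} := by
    rw [Nat.card_eq_fintype_card, Fintype.card_subtype]
    rfl
  rw [h3] at h2
  rw [← h2]
  push_cast
  ring

/-- a finite set containing all the supports -/
noncomputable def SS (k : ℕ) (α : Type*) [Fintype α] [DecidableEq α] : Finset (Fin k →₀ ℕ) :=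
  Finset.univ.biUnion fun g : Perm α => (Fg k g).support

theorem ip_Fg_eq_sum (g h : Perm α) :
    ip (Fg k g) (Fg k h) = ∑ l ∈ SS k α, coeff l (Fg k g) * coeff l (Fg k h) :=
  ip_eq_sum (Finset.subset_biUnion_of_mem (fun g : Perm α => (Fg k g).support)
    (Finset.mem_univ g)) _

/-- Fourier coefficients -/
noncomputable def cc (f : Perm α → ℂ) (l : Fin k →₀ ℕ) : ℂ :=
  ((Fintype.card α).factorial : ℂ)⁻¹ * ∑ h, f h * ((coeff l (Fg k h) : ℤ) : ℂ)

theorem expand (hk : Fintype.card α ≤ k) (f : Perm α → ℂ)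
    (hf : ∀ g h : Perm α, f (h * g * h⁻¹) = f g) (g : Perm α) :
    ∑ l ∈ SS k α, cc f l * ((coeff l (Fg k g) : ℤ) : ℂ) = (k.factorial : ℂ) * f g := by
  have h1 := sum_class hk f hf g
  have h0 : ((Fintype.card α).factorial : ℂ) ≠ 0 := by
    exact_mod_cast Nat.factorial_ne_zero _
  have h2 : ∑ l ∈ SS k α, cc f l * ((coeff l (Fg k g) : ℤ) : ℂ) =
      ((Fintype.card α).factorial : ℂ)⁻¹ * ∑ h, f h * ((ip (Fg k g) (Fg k h) : ℤ) : ℂ) := by
    simp only [cc, ip_Fg_eq_sum, Int.cast_sum, Int.cast_mul, Finset.mul_sum, Finset.sum_mul]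
    rw [Finset.sum_comm]
    refine Finset.sum_congr rfl fun h _ => Finset.sum_congr rfl fun l _ => ?_
    ring
  rw [h2, h1]
  field_simp

theorem parseval (hk : Fintype.card α ≤ k) (f : Perm α → ℂ)
    (hf : ∀ g h : Perm α, f (h * g * h⁻¹) = f g)
    (h1 : ((Fintype.card α).factorial : ℂ)⁻¹ * ∑ g, f g * f g = 1) :
    ∑ l ∈ SS k α, cc f l * cc f l = (k.factorial : ℂ) := by
  have h2 : ∀ g, ∑ l ∈ SS k α, cc f l * ((coeff l (Fg k g) : ℤ) : ℂ) =
      (k.factorial : ℂ) * f g := expand hk f hf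
  calc ∑ l ∈ SS k α, cc f l * cc f l
      = ((Fintype.card α).factorial : ℂ)⁻¹ * ∑ g, f g *
          ∑ l ∈ SS k α, cc f l * ((coeff l (Fg k g) : ℤ) : ℂ) := by
        simp only [Finset.mul_sum]
        rw [Finset.sum_comm]
        refine Finset.sum_congr rfl fun l _ => ?_
        conv_lhs => rw [cc]
        rw [mul_assoc, Finset.sum_mul, Finset.mul_sum]
        refine Finset.sum_congr rfl fun h _ => ?_
        rw [← cc]; ring
    _ = (k.factorial : ℂ) := by
        simp only [h2]
        have h3 : ∑ g, f g * ((k.factorial : ℂ) * f g) = (k.factorial : ℂ) * ∑ g, f g * f g := by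
          rw [Finset.mul_sum]
          refine Finset.sum_congr rfl fun g _ => ?_
          ring
        rw [h3, mul_left_comm, h1, mul_one]

theorem cc_mapDomain (f : Perm α → ℂ) (w : Perm (Fin k)) (l : Fin k →₀ ℕ) :
    cc f (l.mapDomain w) = (((sign w : ℤˣ) : ℤ) : ℂ) * cc f l := by
  rw [cc, cc]
  simp only [Fg, (FF_anti _).coeff_mapDomain, Int.cast_mul, Finset.mul_sum]
  refine Finset.sum_congr rfl fun g _ => ?_
  ring

theorem cc_eq_zero (f : Perm α → ℂ) {l : Fin k →₀ ℕ} (h : l ∉ SS k α) : cc f l = 0 := by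
  rw [cc]
  have : ∀ g : Perm α, coeff l (Fg k g) = 0 := by
    intro g
    by_contra h'
    exact h (Finset.mem_biUnion.2 ⟨g, Finset.mem_univ _, mem_support_iff.2 h'⟩)
  simp [this]

theorem cc_injective (f : Perm α → ℂ) {l : Fin k →₀ ℕ} (h : cc f l ≠ 0) :
    Function.Injective l ∧ ∑ i, l i = Fintype.card α + k * (k - 1) / 2 := by
  rw [cc] at h
  have h1 := right_ne_zero_of_mul h
  obtain ⟨g, _, hg⟩ := Finset.exists_ne_zero_of_sum_ne_zero h1
  have h2 := right_ne_zero_of_mul hg
  have h3 : coeff l (Fg k g) ≠ 0 := by exact_mod_cast h2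
  refine ⟨(FF_anti _).injective h3, ?_⟩
  by_contra hne
  apply h3
  apply (FF_homogeneous (k := k) g.partition.parts).coeff_eq_zero
  rw [degree_eq_sum', g.partition.parts_sum]
  exact hne

/-- The main combinatorial statement: an integral class function of norm one is, up to sign,
one of the determinantal characters. -/
theorem exists_eq_coeff (hk : Fintype.card α ≤ k) (f : Perm α → ℂ)
    (hf : ∀ g h : Perm α, f (h * g * h⁻¹) = f g)
    (h1 : ((Fintype.card α).factorial : ℂ)⁻¹ * ∑ g, f g * f g = 1)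
    (hint : ∀ l : Fin k →₀ ℕ, ∃ z : ℤ, cc f l = (z : ℂ)) :
    ∃ l : Fin k →₀ ℕ, StrictAnti l ∧ ∑ i, l i = Fintype.card α + k * (k - 1) / 2 ∧
      ((∀ g, f g = ((coeff l (Fg k g) : ℤ) : ℂ)) ∨
        (∀ g, f g = -((coeff l (Fg k g) : ℤ) : ℂ))) := by
  classical
  choose z hz using hint
  have hP : ∑ l ∈ SS k α, z l * z l = (k.factorial : ℤ) := by
    have := parseval hk f hf h1
    simp only [hz] at this
    exact_mod_cast this
  have hkpos : (0 : ℤ) < (k.factorial : ℤ) := by exact_mod_cast Nat.factorial_pos k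
  obtain ⟨l0, hl0, hz0⟩ : ∃ l ∈ SS k α, z l ≠ 0 := by
    by_contra hcon
    push Not at hcon
    rw [Finset.sum_eq_zero (fun l hl => by rw [hcon l hl, mul_zero])] at hP
    omega
  have hinj0 : Function.Injective l0 := (cc_injective f (by rw [hz]; exact_mod_cast hz0)).1
  -- sort
  obtain ⟨w0, hw0⟩ : ∃ w : Perm (Fin k), StrictAnti (l0.mapDomain w) := by
    have hmono : StrictMono (l0 ∘ Tuple.sort l0) :=
      (Tuple.monotone_sort l0).strictMono_of_injective
        (hinj0.comp (Tuple.sort l0).injective)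
    refine ⟨(Fin.revPerm.trans (Tuple.sort l0)).symm, ?_⟩
    intro a b hab
    have h2 : ∀ x, (l0.mapDomain (Fin.revPerm.trans (Tuple.sort l0)).symm) x =
        l0 (Tuple.sort l0 (Fin.rev x)) := by
      intro x
      rw [← Finsupp.equivMapDomain_eq_mapDomain]; rfl
    rw [h2, h2]
    exact hmono (Fin.rev_lt_rev.2 hab)
  set l := l0.mapDomain w0 with hl
  have hzmap : ∀ (w : Perm (Fin k)) (l : Fin k →₀ ℕ),
      z (l.mapDomain w) = ((sign w : ℤˣ) : ℤ) * z l := by
    intro w l
    have := cc_mapDomain f w l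
    rw [hz, hz] at this
    exact_mod_cast this
  have hsq : ∀ w : Perm (Fin k), ((sign w : ℤˣ) : ℤ) * ((sign w : ℤˣ) : ℤ) = 1 := by
    intro w
    rw [← Units.val_mul, Int.units_mul_self, Units.val_one]
  have hzl : z l ≠ 0 := by
    rw [hl, hzmap]
    refine mul_ne_zero ?_ hz0
    exact Units.ne_zero _
  have hinj := cc_injective f (l := l) (by rw [hz]; exact_mod_cast hzl)
  refine ⟨l, hw0, hinj.2, ?_⟩
  -- the orbit
  set O : Finset (Fin k →₀ ℕ) := Finset.univ.image (fun w : Perm (Fin k) => l.mapDomain w) with hO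
  have hOinj : Function.Injective (fun w : Perm (Fin k) => l.mapDomain w) := by
    intro v w hvw
    have h2 : ∀ (u : Perm (Fin k)) (x : Fin k), l.mapDomain u (u x) = l x :=
      fun u x => Finsupp.mapDomain_apply u.injective l x
    ext x
    have h3 := h2 v x
    simp only at hvw
    rw [hvw] at h3
    have h4 := h2 w (w.symm (v x))
    rw [Equiv.apply_symm_apply, h3] at h4
    have h5 := congrArg w (hinj.1 h4)
    rw [Equiv.apply_symm_apply] at h5
    rw [h5]
  have hOS : O ⊆ SS k α := by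
    intro l' hl'
    obtain ⟨w, _, rfl⟩ := Finset.mem_image.1 hl'
    by_contra hcon
    have h5 := cc_eq_zero f hcon
    rw [hz, hzmap] at h5
    have : ((sign w : ℤˣ) : ℤ) * z l ≠ 0 := mul_ne_zero (Units.ne_zero _) hzl
    exact this (by exact_mod_cast h5)
  have hOsum : ∑ l' ∈ O, z l' * z l' = (k.factorial : ℤ) * (z l * z l) := by
    rw [hO, Finset.sum_image (fun _ _ _ _ h => hOinj h)]
    have : ∀ w : Perm (Fin k), z (l.mapDomain w) * z (l.mapDomain w) = z l * z l := by
      intro w
      rw [hzmap]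
      calc _ = (((sign w : ℤˣ) : ℤ) * ((sign w : ℤˣ) : ℤ)) * (z l * z l) := by ring
        _ = z l * z l := by rw [hsq, one_mul]
    simp only [this]
    rw [Finset.sum_const, Finset.card_univ, Fintype.card_perm, Fintype.card_fin, nsmul_eq_mul]
  have hsplit := Finset.sum_sdiff hOS (f := fun l' => z l' * z l')
  rw [hP, hOsum] at hsplit
  have hnn : 0 ≤ ∑ l' ∈ SS k α \ O, z l' * z l' :=
    Finset.sum_nonneg fun l' _ => mul_self_nonneg _
  have hzz1 : 1 ≤ z l * z l := by
    have := mul_self_pos.2 hzl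
    omega
  have hzz : z l * z l = 1 := by nlinarith
  have hrest : ∑ l' ∈ SS k α \ O, z l' * z l' = 0 := by
    rw [hzz] at hsplit; omega
  have hrest' : ∀ l' ∈ SS k α \ O, z l' = 0 := by
    intro l' hl'
    have := (Finset.sum_eq_zero_iff_of_nonneg (fun l' _ => mul_self_nonneg (z l'))).1 hrest l' hl'
    exact mul_self_eq_zero.1 this
  have hexp : ∀ g, f g = (z l : ℂ) * ((coeff l (Fg k g) : ℤ) : ℂ) := by
    intro g
    have h6 := expand hk f hf g
    rw [← Finset.sum_sdiff hOS] at h6
    rw [Finset.sum_eq_zero (fun l' hl' => by rw [hz, hrest' l' hl']; simp), zero_add, hO,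
      Finset.sum_image (fun _ _ _ _ h => hOinj h)] at h6
    have : ∀ w : Perm (Fin k), cc f (l.mapDomain w) * ((coeff (l.mapDomain w) (Fg k g) : ℤ) : ℂ) =
        (z l : ℂ) * ((coeff l (Fg k g) : ℤ) : ℂ) := by
      intro w
      rw [hz, hzmap, Fg, (FF_anti _).coeff_mapDomain]
      have := hsq w
      have h7 : ((((sign w : ℤˣ) : ℤ) : ℂ)) * ((((sign w : ℤˣ) : ℤ) : ℂ)) = 1 := by
        exact_mod_cast this
      push_cast
      calc _ = (((((sign w : ℤˣ) : ℤ) : ℂ)) * ((((sign w : ℤˣ) : ℤ) : ℂ))) *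
            ((z l : ℂ) * ((coeff l (FF k g.partition.parts) : ℤ) : ℂ)) := by ring
        _ = _ := by rw [h7, one_mul]
    simp only [this] at h6
    rw [Finset.sum_const, Finset.card_univ, Fintype.card_perm, Fintype.card_fin,
      nsmul_eq_mul] at h6
    have hk0 : (k.factorial : ℂ) ≠ 0 := by exact_mod_cast Nat.factorial_ne_zero k
    exact (mul_left_cancel₀ hk0 h6).symm
  rcases mul_self_eq_one_iff.1 hzz with h | h
  · left; intro g; rw [hexp, h]; simp
  · right; intro g; rw [hexp, h]; simp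

end Helper47.Sn
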