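import Mathlib
import Pool.Agent.Helper47.Sn.Expand

/-!
# The value at the identity
-/

open MvPolynomial Finset Equiv Equiv.Perm

namespace Helper47.Sn

variable {k : ℕ} {α : Type*} [Fintype α] [DecidableEq α]

theorem coeff_psum_one_pow (n : ℕ) (a : Fin k →₀ ℕ) :
    coeff a ((psum (Fin k) ℤ 1) ^ n) * ((∏ i, (a i).factorial : ℕ) : ℤ) =
      if ∑ i, a i = n then (n.factorial : ℤ) else 0 := by
  induction n generalizing a with
  | zero =>
    rw [pow_zero, coeff_one]
    by_cases h : a = 0
    · subst h; simp
    · rw [if_neg (fun h' => h h'.symm), zero_mul, if_neg]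
      intro h'
      apply h
      ext i
      simpa using (Finset.sum_eq_zero_iff.1 h') i (Finset.mem_univ i)
  | succ n ih =>
    rw [pow_succ', coeff_psum_mul, Finset.sum_mul]
    have h1 : ∀ i, (if 1 ≤ a i then coeff (a - Finsupp.single i 1) (psum (Fin k) ℤ 1 ^ n) else 0) *
        ((∏ i, (a i).factorial : ℕ) : ℤ) =
        (a i : ℤ) * if ∑ i, a i = n + 1 then (n.factorial : ℤ) else 0 := by
      intro i
      by_cases hi : 1 ≤ a i
      · rw [if_pos hi]
        have h2 : ∏ j, (a j).factorial =
            a i * ∏ j, ((a - Finsupp.single i 1 : Fin k →₀ ℕ) j).factorial := by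
          rw [← Finset.mul_prod_erase _ _ (Finset.mem_univ i),
            ← Finset.mul_prod_erase (a := i) Finset.univ
              (fun j => ((a - Finsupp.single i 1 : Fin k →₀ ℕ) j).factorial) (Finset.mem_univ i)]
          rw [← mul_assoc]
          congr 1
          · simp only [Finsupp.tsub_apply, Finsupp.single_eq_same]
            exact (Nat.mul_factorial_pred (by omega)).symm
          · refine Finset.prod_congr rfl fun j hj => ?_
            have : j ≠ i := Finset.ne_of_mem_erase hj
            simp [Finsupp.single_apply, this.symm]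
        rw [h2]
        have h3 := ih (a - Finsupp.single i 1)
        have h4 : ∑ j, (a - Finsupp.single i 1 : Fin k →₀ ℕ) j + 1 = ∑ j, a j := by
          rw [← Finset.add_sum_erase _ _ (Finset.mem_univ i),
            ← Finset.add_sum_erase _ (fun j => a j) (Finset.mem_univ i)]
          have : ∑ x ∈ Finset.univ.erase i, (a - Finsupp.single i 1 : Fin k →₀ ℕ) x =
              ∑ x ∈ Finset.univ.erase i, a x := by
            refine Finset.sum_congr rfl fun j hj => ?_
            have : j ≠ i := Finset.ne_of_mem_erase hj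
            simp [Finsupp.single_apply, this.symm]
          rw [this]
          simp only [Finsupp.tsub_apply, Finsupp.single_eq_same]
          omega
        have h5 : (∑ j, (a - Finsupp.single i 1 : Fin k →₀ ℕ) j = n) ↔ (∑ j, a j = n + 1) := by
          omega
        simp only [h5] at h3
        rw [← h3]
        push_cast
        ring
      · rw [if_neg hi, zero_mul]
        have : a i = 0 := by omega
        rw [this]; simp
    simp only [h1]
    rw [← Finset.sum_mul]
    split_ifs with h
    · rw [← Nat.cast_sum, h, Nat.factorial_succ]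
      push_cast; ring
    · rw [mul_zero]

theorem Fg_one : Fg k (1 : Perm α) = (psum (Fin k) ℤ 1) ^ (Fintype.card α) * vdm k := by
  rw [Fg, FF, parts_partition]
  simp

theorem coeff_Fg_one {l : Fin k →₀ ℕ} (hl : ∑ i, l i = Fintype.card α + k * (k - 1) / 2) :
    coeff l (Fg k (1 : Perm α)) * ((∏ i, (l i).factorial : ℕ) : ℤ) =
      ((Fintype.card α).factorial : ℤ) * ∏ i, ∏ j ∈ Finset.Ioi i, ((l j : ℤ) - (l i : ℤ)) := by
  rw [Fg_one, mul_comm (psum (Fin k) ℤ 1 ^ Fintype.card α), vdm, Finset.sum_mul, coeff_sum,
    Finset.sum_mul]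
  have h1 : ∀ w : Perm (Fin k),
      coeff l (monomial (expo w) ((sign w : ℤˣ) : ℤ) * psum (Fin k) ℤ 1 ^ Fintype.card α) *
        ((∏ i, (l i).factorial : ℕ) : ℤ) =
      ((Fintype.card α).factorial : ℤ) *
        (((sign w : ℤˣ) : ℤ) * ∏ i, (((l i).descFactorial (w i : ℕ) : ℕ) : ℤ)) := by
    intro w
    rw [coeff_monomial_mul']
    by_cases hw : expo w ≤ l
    · rw [if_pos hw]
      have h2 : ∀ i, (w i : ℕ) ≤ l i := fun i => hw i
      have h3 : ∏ i, (l i).factorial = (∏ i, ((l - expo w : Fin k →₀ ℕ) i).factorial) *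
          ∏ i, (l i).descFactorial (w i : ℕ) := by
        rw [← Finset.prod_mul_distrib]
        refine Finset.prod_congr rfl fun i _ => ?_
        rw [Finsupp.tsub_apply, expo_apply, Nat.factorial_mul_descFactorial (h2 i)]
      have h4 := coeff_psum_one_pow (Fintype.card α) (l - expo w)
      have h5 : ∑ i, (l - expo w : Fin k →₀ ℕ) i = Fintype.card α := by
        have h6 : ∑ i, (l - expo w : Fin k →₀ ℕ) i + ∑ i, expo w i = ∑ i, l i := by
          rw [← Finset.sum_add_distrib]
          refine Finset.sum_congr rfl fun i _ => ?_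
          have := h2 i
          simp only [Finsupp.tsub_apply, expo_apply]
          omega
        rw [sum_expo, hl] at h6
        omega
      rw [if_pos h5] at h4
      rw [← h4, h3]
      push_cast
      ring
    · rw [if_neg hw, zero_mul]
      have : ∃ i, l i < w i := by
        by_contra hcon
        push Not at hcon
        exact hw hcon
      obtain ⟨i, hi⟩ := this
      rw [Finset.prod_eq_zero (Finset.mem_univ i)]
      · simp
      · exact_mod_cast Nat.descFactorial_eq_zero_iff_lt.2 hi
  simp only [h1]
  rw [← Finset.mul_sum]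
  congr 1
  rw [← Matrix.det_vandermonde (fun i => (l i : ℤ))]
  rw [Matrix.det_eval_matrixOfPolynomials_eq_det_vandermonde (fun i => (l i : ℤ))
    (fun j => descPochhammer ℤ (j : ℕ)) (fun j => descPochhammer_natDegree ℤ _)
    (fun j => monic_descPochhammer ℤ _)]
  rw [← Matrix.det_transpose, Matrix.det_apply']
  refine Finset.sum_congr rfl fun w _ => ?_
  congr 1
  refine Finset.prod_congr rfl fun i _ => ?_
  rw [Matrix.transpose_apply, Matrix.of_apply, descPochhammer_eval_eq_descFactorial]

theorem natAbs_prod {l : Fin k → ℕ} (hl : StrictAnti l) :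
    (∏ i, ∏ j ∈ Finset.Ioi i, ((l j : ℤ) - (l i : ℤ))).natAbs =
      ∏ a, ∏ b ∈ Finset.Ioi a, (l a - l b) := by
  rw [← Int.natAbsHom_apply, map_prod]
  refine Finset.prod_congr rfl fun i _ => ?_
  rw [map_prod]
  refine Finset.prod_congr rfl fun j hj => ?_
  have := hl (Finset.mem_Ioi.1 hj)
  rw [Int.natAbsHom_apply]
  omega

/-- degree formula for integral class functions of norm one with natural value at `1` -/
theorem exists_degree (hk : Fintype.card α ≤ k) (f : Perm α → ℂ)
    (hf : ∀ g h : Perm α, f (h * g * h⁻¹) = f g)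
    (h1 : ((Fintype.card α).factorial : ℂ)⁻¹ * ∑ g, f g * f g = 1)
    (hint : ∀ l : Fin k →₀ ℕ, ∃ z : ℤ, cc f l = (z : ℂ)) (d : ℕ) (hd : f 1 = (d : ℂ)) :
    ∃ l : Fin k → ℕ, StrictAnti l ∧ ∑ i, l i = Fintype.card α + k * (k - 1) / 2 ∧
      d * ∏ a, (l a).factorial =
        (Fintype.card α).factorial * ∏ a, ∏ b ∈ Finset.Ioi a, (l a - l b) := by
  obtain ⟨l, hanti, hsum, hl⟩ := exists_eq_coeff hk f hf h1 hint
  refine ⟨l, hanti, hsum, ?_⟩
  have hc := coeff_Fg_one (α := α) hsum
  have hd' : d = (coeff l (Fg k (1 : Perm α))).natAbs := by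
    rcases hl with hl | hl
    · have := hl 1
      rw [hd] at this
      have h2 : (d : ℤ) = coeff l (Fg k (1 : Perm α)) := by exact_mod_cast this
      rw [← h2]; simp
    · have := hl 1
      rw [hd] at this
      have h2 : (d : ℤ) = -coeff l (Fg k (1 : Perm α)) := by exact_mod_cast this
      omega
  have h3 := congrArg Int.natAbs hc
  rw [Int.natAbs_mul, Int.natAbs_mul, natAbs_prod hanti, Int.natAbs_natCast, Int.natAbs_natCast,
    ← hd'] at h3
  exact h3

end Helper47.Sn
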