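import Mathlib
import Pool.Agent.Helper47.Sn.Dim

/-!
# The degree formula for simple representations of the symmetric group
-/

open MvPolynomial Finset Equiv Equiv.Perm

namespace Helper47.Sn

section general

variable {G : Type} [Group G] [Fintype G] {X : Type} [Fintype X] [DecidableEq X] [MulAction G X]

/-- the permutation representation on functions -/
noncomputable def permRep (G X : Type) [Group G] [MulAction G X] :
    Representation ℂ G (X → ℂ) where
  toFun g := LinearMap.funLeft ℂ ℂ (fun x : X => g⁻¹ • x)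
  map_one' := by
    ext f x
    simp [LinearMap.funLeft_apply]
  map_mul' g h := by
    ext f x
    simp [LinearMap.funLeft_apply, mul_smul]

omit [Fintype G] in
theorem trace_permRep (g : G) :
    LinearMap.trace ℂ (X → ℂ) (permRep G X g) = ((#{x : X | g • x = x} : ℕ) : ℂ) := by
  rw [LinearMap.trace_eq_matrix_trace ℂ (Pi.basisFun ℂ X), Matrix.trace]
  rw [Finset.card_filter, Nat.cast_sum]
  refine Finset.sum_congr rfl fun x _ => ?_
  rw [Matrix.diag_apply, LinearMap.toMatrix_apply, Pi.basisFun_apply, Pi.basisFun_repr]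
  show LinearMap.funLeft ℂ ℂ (fun x : X => g⁻¹ • x) (Pi.single x 1) x = _
  rw [LinearMap.funLeft_apply, Pi.single_apply]
  by_cases h : g • x = x
  · rw [if_pos h, if_pos (by rw [inv_smul_eq_iff]; exact h.symm)]; simp
  · rw [if_neg h, if_neg (by rw [inv_smul_eq_iff]; exact fun h' => h h'.symm)]; simp

theorem integral_mul_fix (V : FDRep ℂ G) :
    ∃ z : ℤ, (Nat.card G : ℂ)⁻¹ * ∑ g : G, V.character g * ((#{x : X | g • x = x} : ℕ) : ℂ) =
      (z : ℂ) := by
  have : Invertible (Nat.card G : ℂ) := invertibleOfNonzero (by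
    exact_mod_cast Nat.card_pos.ne')
  set ρ : Representation ℂ G (TensorProduct ℂ V (X → ℂ)) :=
    Representation.tprod V.ρ (permRep G X) with hρ
  have h1 := Representation.card_inv_mul_sum_char_eq_finrank ρ
  refine ⟨(Module.finrank ℂ (Representation.invariants ρ) : ℤ), ?_⟩
  rw [Int.cast_natCast, ← h1]
  congr 1
  refine Finset.sum_congr rfl fun g _ => ?_
  rw [hρ, Representation.char_tensor, Pi.mul_apply]
  congr 1
  rw [Representation.character, trace_permRep]

end general

variable {k n : ℕ}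

/-- weight of a colouring -/
noncomputable def wt {α : Type*} [Fintype α] (c : α → Fin k) : Fin k →₀ ℕ :=
  ∑ x, Finsupp.single (c x) 1

theorem prod_X_eq {α : Type*} [Fintype α] (c : α → Fin k) :
    (∏ x, X (c x) : MvPolynomial (Fin k) ℤ) = monomial (wt c) 1 := by
  rw [wt, monomial_sum_one]
  rfl

theorem wt_comp {α : Type*} [Fintype α] (c : α → Fin k) (g : Perm α) : wt (c ∘ g) = wt c := by
  rw [wt, wt]
  exact Equiv.sum_comp g (fun x => Finsupp.single (c x) 1)

/-- colourings of given weight -/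
def Col (n k : ℕ) (a : Fin k →₀ ℕ) : Type := {c : Fin n → Fin k // wt c = a}

noncomputable instance (a : Fin k →₀ ℕ) : Fintype (Col n k a) := by
  classical
  unfold Col; infer_instance

noncomputable instance (a : Fin k →₀ ℕ) : DecidableEq (Col n k a) := Classical.decEq _

noncomputable instance (a : Fin k →₀ ℕ) : MulAction (Perm (Fin n)) (Col n k a) where
  smul g c := ⟨c.1 ∘ (g⁻¹ : Perm (Fin n)), by rw [wt_comp, c.2]⟩
  one_smul c := by
    apply Subtype.ext
    show c.1 ∘ ((1 : Perm (Fin n))⁻¹ : Perm (Fin n)) = c.1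
    rw [inv_one]; rfl
  mul_smul g h c := by
    apply Subtype.ext
    show c.1 ∘ ((g * h)⁻¹ : Perm (Fin n)) = (c.1 ∘ (h⁻¹ : Perm (Fin n))) ∘ (g⁻¹ : Perm (Fin n))
    rw [mul_inv_rev]; rfl

theorem smul_val (a : Fin k →₀ ℕ) (g : Perm (Fin n)) (c : Col n k a) :
    (g • c).1 = c.1 ∘ (g⁻¹ : Perm (Fin n)) := rfl

theorem coeff_colPoly (g : Perm (Fin n)) (a : Fin k →₀ ℕ) :
    coeff a (colPoly k g) = ((#{c : Col n k a | g • c = c} : ℕ) : ℤ) := by
  classical
  rw [colPoly, coeff_sum]
  simp only [prod_X_eq, coeff_monomial]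
  rw [← Finset.sum_filter, Finset.sum_const, nsmul_eq_mul, mul_one]
  congr 1
  have key : ∀ c : Col n k a, g • c = c ↔ c.1 ∘ g = c.1 := by
    intro c
    constructor
    · intro h
      have h1 := congrArg Subtype.val h
      rw [smul_val] at h1
      conv_lhs => rw [← h1]
      ext x
      simp
    · intro h
      apply Subtype.ext
      rw [smul_val]
      conv_lhs => rw [← h]
      ext x
      simp
  refine Finset.card_bij (fun (c : {c : Fin n → Fin k // c ∘ g = c})
    (hc : c ∈ Finset.univ.filter (fun c : {c : Fin n → Fin k // c ∘ g = c} => wt c.1 = a)) =>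
      (⟨c.1, (Finset.mem_filter.1 hc).2⟩ : Col n k a)) ?_ ?_ ?_
  · intro c hc
    exact Finset.mem_filter.2 ⟨Finset.mem_univ _, (key _).2 c.2⟩
  · intro c _ c' _ h
    have h' := congrArg (fun (x : Col n k a) => x.1) h
    exact Subtype.ext h'
  · intro c hc
    have h1 := (key c).1 (Finset.mem_filter.1 hc).2
    exact ⟨⟨c.1, h1⟩, Finset.mem_filter.2 ⟨Finset.mem_univ _, c.2⟩, rfl⟩

theorem integral_colPoly (V : FDRep ℂ (Perm (Fin n))) (a : Fin k →₀ ℕ) :
    ∃ z : ℤ, (n.factorial : ℂ)⁻¹ * ∑ g : Perm (Fin n), V.character g *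
      ((coeff a (colPoly k g) : ℤ) : ℂ) = (z : ℂ) := by
  obtain ⟨z, hz⟩ := integral_mul_fix (X := Col n k a) V
  refine ⟨z, ?_⟩
  rw [← hz]
  have : Nat.card (Perm (Fin n)) = n.factorial := by
    rw [Nat.card_eq_fintype_card, Fintype.card_perm, Fintype.card_fin]
  rw [this]
  congr 1
  refine Finset.sum_congr rfl fun g _ => ?_
  rw [coeff_colPoly]
  push_cast
  rfl

theorem integral_cc (V : FDRep ℂ (Perm (Fin n))) (l : Fin k →₀ ℕ) :
    ∃ z : ℤ, cc V.character l = (z : ℂ) := by
  choose z hz using integral_colPoly (k := k) V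
  refine ⟨∑ w : Perm (Fin k), if expo w ≤ l then ((sign w : ℤˣ) : ℤ) * z (l - expo w) else 0, ?_⟩
  rw [cc]
  have h1 : ∀ g : Perm (Fin n), ((coeff l (Fg k g) : ℤ) : ℂ) = ∑ w : Perm (Fin k),
      if expo w ≤ l then (((sign w : ℤˣ) : ℤ) : ℂ) * ((coeff (l - expo w) (colPoly k g) : ℤ) : ℂ)
        else 0 := by
    intro g
    rw [Fg_eq, vdm, Finset.mul_sum, coeff_sum, Int.cast_sum]
    refine Finset.sum_congr rfl fun w _ => ?_
    rw [coeff_mul_monomial']
    split_ifs
    · push_cast; ring
    · simp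
  simp only [h1, Finset.mul_sum]
  rw [Finset.sum_comm]
  push_cast
  refine Finset.sum_congr rfl fun w _ => ?_
  split_ifs with h
  · rw [← hz, Finset.mul_sum, Finset.mul_sum, Fintype.card_fin]
    refine Finset.sum_congr rfl fun g _ => ?_
    ring
  · simp

/-- **Degree formula.** Every simple representation of `S_n` has a degree given by the Frobenius
formula for some strictly decreasing sequence `l` (a beta-set of a partition of `n`). -/
theorem degree_formula' (n k : ℕ) (hk : n ≤ k) (V : FDRep ℂ (Equiv.Perm (Fin n)))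
    [CategoryTheory.Simple V] : ∃ l : Fin k → ℕ, StrictAnti l ∧
      ∑ a, l a = n + k * (k - 1) / 2 ∧
      Module.finrank ℂ V * ∏ a, (l a).factorial =
        n.factorial * ∏ a, ∏ b ∈ Finset.Ioi a, (l a - l b) := by
  have hk' : Fintype.card (Fin n) ≤ k := by rwa [Fintype.card_fin]
  have hcard : Nat.card (Perm (Fin n)) = n.factorial := by
    rw [Nat.card_eq_fintype_card, Fintype.card_perm, Fintype.card_fin]
  have : Invertible (Nat.card (Perm (Fin n)) : ℂ) := invertibleOfNonzero (by
    exact_mod_cast Nat.card_pos.ne')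
  have h1 : ((Fintype.card (Fin n)).factorial : ℂ)⁻¹ *
      ∑ g : Perm (Fin n), V.character g * V.character g = 1 := by
    have h2 := FDRep.char_orthonormal V V
    rw [if_pos ⟨CategoryTheory.Iso.refl V⟩, hcard] at h2
    rw [Fintype.card_fin, ← h2]
    congr 1
    refine Finset.sum_congr rfl fun g _ => ?_
    congr 1
    have h3 : IsConj g g⁻¹ := by rw [isConj_iff_cycleType_eq, cycleType_inv]
    obtain ⟨c, hc⟩ := isConj_iff.1 h3
    rw [← hc, FDRep.char_conj]
  have := exists_degree (α := Fin n) hk' V.character (fun g h => FDRep.char_conj V g h) h1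
    (integral_cc V) (Module.finrank ℂ V) (FDRep.char_one V)
  rw [Fintype.card_fin] at this
  exact this

theorem degree_formula (n k : ℕ) (hk : 2 * n ≤ k) (V : FDRep ℂ (Equiv.Perm (Fin n)))
    [CategoryTheory.Simple V] : ∃ l : Fin k → ℕ, StrictAnti l ∧
      ∑ a, l a = n + k * (k - 1) / 2 ∧
      Module.finrank ℂ V * ∏ a, (l a).factorial =
        n.factorial * ∏ a, ∏ b ∈ Finset.Ioi a, (l a - l b) :=
  degree_formula' n k (by omega) V

end Helper47.Sn
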